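import Pool.Agent.Helper31.HT.Conf

/-!
# MP_94b6b1_an, Q2: Thompson's groups `F`, `T`, `V` do not have the heat property

The heat property is defined as in the problem file. Thompson's groups are defined as groups of
permutations of the Cantor space of infinite binary sequences.

Proof. Let `t` be an element of `F` supported in a cone `D`, let `E` be a cone contained in a
fundamental domain of `t`, let `s` be an element of `F` with `s D` strictly contained in `E`, and let
`a` be an element of infinite order supported in `E \ s D`. The conjugates of `a` by the elements of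
the group generated by `s` and `t` commute with each other and generate a free abelian group of
infinite rank, and the simple random walk of `s, t` on these conjugates is transient. So the random
walk `switch, walk, switch` visits linearly many lamps; the heat property would force any negative
definite function `d` to be large on average on boxes of the lamps (an argument with the signs of
Rudin and Shapiro), which contradicts the subadditivity of `d` along convolution powers.
-/

set_option autoImplicit false

namespace Pool.Agent.Results.MP_94b6b1_an.ThompsonNoHeat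

open scoped ComplexConjugate

/-! ### the heat property -/

/-- the Hilbert space `ℓ²(G)` -/
def H (G : Type) : Type := lp (fun _ : G => ℂ) 2

noncomputable instance (G : Type) : NormedAddCommGroup (H G) :=
  lp.normedAddCommGroup (E := fun _ : G => ℂ) (p := 2)

noncomputable instance (G : Type) : NormedSpace ℂ (H G) :=
  lp.instNormedSpace (𝕜 := ℂ) (E := fun _ : G => ℂ) (p := 2)

/-- the value of `f ∈ ℓ²(G)` at `x` -/
def ev {G : Type} (f : H G) (x : G) : ℂ := (show lp (fun _ : G => ℂ) 2 from f) x

/-- the unit vector `δ_x` -/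
noncomputable def delta {G : Type} (x : G) : H G :=
  open Classical in (lp.single 2 x (1 : ℂ) : lp (fun _ : G => ℂ) 2)

/-- the bounded operators on `ℓ²(G)`, with the operator norm -/
def Op (G : Type) : Type := H G →L[ℂ] H G

noncomputable instance (G : Type) : NormedAddCommGroup (Op G) :=
  ContinuousLinearMap.toNormedAddCommGroup (E := H G) (F := H G) (σ₁₂ := RingHom.id ℂ)

noncomputable instance (G : Type) : NormedSpace ℂ (Op G) :=
  ContinuousLinearMap.toNormedSpace (𝕜' := ℂ) (E := H G) (F := H G) (σ₁₂ := RingHom.id ℂ)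

/-- application of an operator to a vector -/
noncomputable def app {G : Type} (T : Op G) (f : H G) : H G := (show H G →L[ℂ] H G from T) f

open Classical in
/-- the left regular representation: `lam g` is the bounded operator with
`(lam g f)(x) = f (g⁻¹ x)` (it exists and is unique, see `ev_lam`) -/
noncomputable def lam {G : Type} [Group G] (g : G) : Op G :=
  if h : ∃ T : Op G, ∀ (f : H G) (x : G), ev (app T f) x = ev f (g⁻¹ * x) then h.choose else 0

/-- the reduced group C*-algebra `C_r^*(G)`: the norm closure of the linear span of the `λ(g)` -/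
def Cr (G : Type) [Group G] : Set (Op G) :=
  closure (Submodule.span ℂ (Set.range (lam : G → Op G)) : Set (Op G))

/-- the Fourier coefficient `x̂(g) = ⟨x δ_e, δ_g⟩ = (x δ_e)(g)` -/
noncomputable def coef {G : Type} [Group G] (x : Op G) (g : G) : ℂ := ev (app x (delta 1)) g

/-- the Fourier series of `x` converges in operator norm as an unordered sum -/
def InCF {G : Type} [Group G] (x : Op G) : Prop := Summable fun g : G => coef x g • lam g

/-- `ND_0^+(G)`: the nonnegative functions with `d(e) = 0` which are negative definite -/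
structure ND {G : Type} [Group G] (d : G → ℝ) : Prop where
  nonneg : ∀ g, 0 ≤ d g
  one : d 1 = 0
  symm : ∀ g, d g⁻¹ = d g
  neg : ∀ (n : ℕ) (g : Fin n → G) (b : Fin n → ℂ), ∑ i, b i = 0 →
    (∑ i, ∑ j, conj (b i) * b j * (d ((g i)⁻¹ * g j) : ℂ)).re ≤ 0

/-- `M` is a bounded linear map of `C_r^*(G)` into itself with `M (λ(g)) = exp (- t d(g)) λ(g)`
(the values outside `C_r^*(G)` are irrelevant); so `M = M_t^d` -/
structure IsHeatMap {G : Type} [Group G] (d : G → ℝ) (t : ℝ) (M : Op G → Op G) : Prop where
  maps : ∀ x ∈ Cr G, M x ∈ Cr G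
  add : ∀ x ∈ Cr G, ∀ y ∈ Cr G, M (x + y) = M x + M y
  smul : ∀ (c : ℂ), ∀ x ∈ Cr G, M (c • x) = c • M x
  bdd : ∃ C : ℝ, ∀ x ∈ Cr G, ‖M x‖ ≤ C * ‖x‖
  lam : ∀ g : G, M (lam g) = ((Real.exp (-(t * d g)) : ℝ) : ℂ) • lam g

/-- the heat property: for some `d ∈ ND_0^+(G)`, for every `t > 0`, `M_t^d` maps `C_r^*(G)` into
`CF(G)` -/
def Heat (G : Type) [Group G] : Prop := ∃ d : G → ℝ, ND d ∧ ∀ t : ℝ, 0 < t →
  ∃ M : Op G → Op G, IsHeatMap d t M ∧ ∀ x ∈ Cr G, InCF (M x)

/-! ### Thompson's groups -/

/-- the Cantor space of infinite binary sequences -/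
abbrev X : Type := ℕ → Bool

/-- the sequence `b x₀ x₁ x₂ ⋯` -/
def cons (b : Bool) (x : X) : X := fun n => match n with
  | 0 => b
  | n + 1 => x n

/-- the sequence `u x`: the finite word `u` followed by the sequence `x` -/
def pre (u : List Bool) (x : X) : X := u.foldr cons x

/-- the lexicographic order of the Cantor space -/
def lt (x y : X) : Prop := ∃ n, (∀ m < n, x m = y m) ∧ x n = false ∧ y n = true

/-- the cyclic order of the Cantor space -/
def cyc (x y z : X) : Prop := (lt x y ∧ lt y z) ∨ (lt y z ∧ lt z x) ∨ (lt z x ∧ lt x y)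

/-- `f` is locally a replacement of initial words: every point `x` starts with a finite word `u`
such that for some finite word `v`, `f (u w) = v w` for all sequences `w` -/
def Loc (f : X → X) : Prop := ∀ x : X, ∃ (u v : List Bool) (w : X), x = pre u w ∧
  ∀ w' : X, f (pre u w') = pre v w'

theorem pre_nil (x : X) : pre [] x = x := rfl

theorem pre_cons (b : Bool) (u : List Bool) (x : X) : pre (b :: u) x = cons b (pre u x) := rfl

theorem pre_append (u v : List Bool) (x : X) : pre (u ++ v) x = pre u (pre v x) :=
  List.foldr_append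

theorem cons_zero (b : Bool) (x : X) : cons b x 0 = b := rfl

theorem cons_succ (b : Bool) (x : X) (n : ℕ) : cons b x (n + 1) = x n := rfl

theorem cons_eta (x : X) : cons (x 0) (fun n => x (n + 1)) = x := by
  funext n
  cases n <;> rfl

theorem exists_cons (x : X) : ∃ b w, x = cons b w := ⟨x 0, fun n => x (n + 1), (cons_eta x).symm⟩

theorem cons_inj {b b' : Bool} {x x' : X} (h : cons b x = cons b' x') : b = b' ∧ x = x' :=
  ⟨congrFun h 0, funext fun n => congrFun h (n + 1)⟩

theorem exists_pre (n : ℕ) (x : X) : ∃ u w, u.length = n ∧ x = pre u w := by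
  induction n generalizing x with
  | zero => exact ⟨[], x, rfl, rfl⟩
  | succ n ih =>
    obtain ⟨b, w, rfl⟩ := exists_cons x
    obtain ⟨u, w', hu, rfl⟩ := ih w
    exact ⟨b :: u, w', by rw [List.length_cons, hu], rfl⟩

theorem pre_inj (u : List Bool) {x x' : X} (h : pre u x = pre u x') : x = x' := by
  induction u with
  | nil => exact h
  | cons b u ih => exact ih (cons_inj h).2

theorem pre_of_le (p : List Bool) : ∀ (v : List Bool) (z w : X), pre p z = pre v w →
    p.length ≤ v.length → ∃ r, v = p ++ r := by
  induction p with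
  | nil => intro v z w _ _; exact ⟨v, rfl⟩
  | cons b p ih =>
    intro v z w h hl
    cases v with
    | nil => simp at hl
    | cons b' v =>
      obtain ⟨h1, h2⟩ := cons_inj h
      obtain ⟨r, hr⟩ := ih v z w h2 (by simpa using hl)
      exact ⟨r, by rw [h1, hr, List.cons_append]⟩

theorem Loc.comp {f g : X → X} (hf : Loc f) (hg : Loc g) : Loc (fun x => f (g x)) := by
  intro x
  obtain ⟨u, v, w, rfl, h1⟩ := hg x
  obtain ⟨p, q, z, h2, h3⟩ := hf (g (pre u w))
  rw [h1] at h2
  obtain ⟨r, w', hr, rfl⟩ := exists_pre p.length w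
  obtain ⟨r', hr'⟩ := pre_of_le p (v ++ r) z w' (by rw [pre_append, ← h2])
    (by rw [List.length_append]; omega)
  refine ⟨u ++ r, q ++ r', w', (pre_append _ _ _).symm, fun w'' => ?_⟩
  change f (g (pre (u ++ r) w'')) = _
  rw [pre_append, h1, ← pre_append, hr', pre_append, h3, pre_append]

theorem p_ai (f : Equiv.Perm X) (x : X) : f (f⁻¹ x) = x := f.apply_symm_apply x

theorem p_ia (f : Equiv.Perm X) (x : X) : f⁻¹ (f x) = x := f.symm_apply_apply x

theorem Loc.symm {f : Equiv.Perm X} (hf : Loc f) : Loc (f⁻¹ : Equiv.Perm X) := by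
  intro y
  obtain ⟨u, v, w, h1, h2⟩ := hf (f⁻¹ y)
  refine ⟨v, u, w, ?_, fun w' => ?_⟩
  · rw [← h2, ← h1, p_ai]
  · rw [← h2, p_ia]

/-- Thompson's group `V`: the permutations of the Cantor space which are locally replacements of
initial words -/
def V : Subgroup (Equiv.Perm X) where
  carrier := {f | Loc f}
  mul_mem' := fun hf hg => Loc.comp hf hg
  one_mem' := fun x => ⟨[], [], x, rfl, fun _ => rfl⟩
  inv_mem' := fun hf => Loc.symm hf

/-- Thompson's group `T`: the elements of `V` which preserve the cyclic order -/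
def T : Subgroup (Equiv.Perm X) where
  carrier := {f | f ∈ V ∧ ∀ x y z, cyc x y z ↔ cyc (f x) (f y) (f z)}
  mul_mem' := fun hf hg => ⟨V.mul_mem hf.1 hg.1, fun x y z => (hg.2 x y z).trans (hf.2 _ _ _)⟩
  one_mem' := ⟨V.one_mem, fun _ _ _ => Iff.rfl⟩
  inv_mem' := fun {f} hf => ⟨V.inv_mem hf.1, fun x y z => by
    have := hf.2 (f⁻¹ x) (f⁻¹ y) (f⁻¹ z)
    rw [p_ai, p_ai, p_ai] at this
    exact this.symm⟩

/-- Thompson's group `F`: the elements of `V` which preserve the order -/
def F : Subgroup (Equiv.Perm X) where
  carrier := {f | f ∈ V ∧ ∀ x y, lt x y ↔ lt (f x) (f y)}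
  mul_mem' := fun hf hg => ⟨V.mul_mem hf.1 hg.1, fun x y => (hg.2 x y).trans (hf.2 _ _)⟩
  one_mem' := ⟨V.one_mem, fun _ _ => Iff.rfl⟩
  inv_mem' := fun {f} hf => ⟨V.inv_mem hf.1, fun x y => by
    have := hf.2 (f⁻¹ x) (f⁻¹ y)
    rw [p_ai, p_ai] at this
    exact this.symm⟩

theorem F_le_T : F ≤ T := fun f hf => ⟨hf.1, fun x y z => by
  unfold cyc
  rw [← hf.2 x y, ← hf.2 y z, ← hf.2 z x]⟩

theorem F_le_V : F ≤ V := fun _ hf => hf.1

/-! ### comparison with the definitions used in the proof -/

section compare

variable {G : Type} [Group G]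

/-- `lam g` is the left translation by `g` -/
lemma ev_lam (g : G) (f : H G) (x : G) : ev (app (lam g) f) x = ev f (g⁻¹ * x) := by
  classical
  have h : ∃ T : Op G, ∀ (f : H G) (x : G), ev (app T f) x = ev f (g⁻¹ * x) :=
    ⟨Pool.Agent.R499.HT.lam g, fun f x => Pool.Agent.R499.HT.lam_apply g f x⟩
  rw [lam, dif_pos h]
  exact h.choose_spec f x

omit [Group G] in
lemma ev_ext {f f' : H G} (h : ∀ x, ev f x = ev f' x) : f = f' := by
  have : (show lp (fun _ : G => ℂ) 2 from f) = (show lp (fun _ : G => ℂ) 2 from f') := by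
    ext x
    exact h x
  exact this

lemma lam_eq (g : G) : (lam g : Op G) = (Pool.Agent.R499.HT.lam g : Op G) := by
  have : ∀ f : H G, app (lam g) f = app (Pool.Agent.R499.HT.lam g : Op G) f := by
    intro f
    apply ev_ext
    intro x
    rw [ev_lam]
    exact (Pool.Agent.R499.HT.lam_apply g f x).symm
  exact ContinuousLinearMap.ext (f := (show H G →L[ℂ] H G from lam g))
    (g := (show H G →L[ℂ] H G from (Pool.Agent.R499.HT.lam g : Op G))) this

omit [Group G] in
lemma delta_eq (x : G) : (delta x : H G) = (Pool.Agent.R499.HT.bas G x : H G) := by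
  classical
  have := (Pool.Agent.R499.HT.bas G).repr_symm_single x
  rw [← this]
  unfold delta
  congr!

lemma mem_Cr (x : Op G) : x ∈ Cr G ↔
    (show Pool.Agent.R499.HT.L2 G →L[ℂ] Pool.Agent.R499.HT.L2 G from x) ∈
      Pool.Agent.R499.HT.Cr G := by
  have h : (lam : G → Op G) = (fun g => (Pool.Agent.R499.HT.lam g : Op G)) := funext lam_eq
  unfold Cr
  rw [h]
  exact Iff.rfl

lemma coef_eq (x : Op G) (g : G) : coef x g = Pool.Agent.R499.HT.coef
    (show Pool.Agent.R499.HT.L2 G →L[ℂ] Pool.Agent.R499.HT.L2 G from x) g := by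
  unfold coef
  rw [delta_eq]
  rfl

lemma inCF_iff (x : Op G) : InCF x ↔ Pool.Agent.R499.HT.InCF
    (show Pool.Agent.R499.HT.L2 G →L[ℂ] Pool.Agent.R499.HT.L2 G from x) := by
  unfold InCF
  have : (fun g : G => coef x g • (lam g : Op G)) = fun g : G => (Pool.Agent.R499.HT.coef
    (show Pool.Agent.R499.HT.L2 G →L[ℂ] Pool.Agent.R499.HT.L2 G from x) g) •
      (Pool.Agent.R499.HT.lam g : Op G) := by
    funext g
    rw [coef_eq, lam_eq]
    rfl
  rw [this]
  exact Iff.rfl

lemma nd_iff (d : G → ℝ) : ND d ↔ Pool.Agent.R499.HT.ND d :=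
  ⟨fun h => ⟨h.nonneg, h.one, h.symm, h.neg⟩, fun h => ⟨h.nonneg, h.one, h.symm, h.neg⟩⟩

lemma heat_imp (h : Heat G) : Pool.Agent.R499.HT.Heat G := by
  obtain ⟨d, hd, hh⟩ := h
  refine ⟨d, (nd_iff d).1 hd, ?_⟩
  intro t ht
  obtain ⟨M, hM, hCF⟩ := hh t ht
  obtain ⟨C, hC⟩ := hM.bdd
  let M0 : Pool.Agent.R499.HT.Cr G →ₗ[ℂ] Pool.Agent.R499.HT.Cr G :=
    { toFun := fun x => ⟨M x.1, (mem_Cr _).1 (hM.maps _ ((mem_Cr _).2 x.2))⟩
      map_add' := by
        intro x y
        apply Subtype.ext
        exact hM.add _ ((mem_Cr _).2 x.2) _ ((mem_Cr _).2 y.2)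
      map_smul' := by
        intro c x
        apply Subtype.ext
        exact hM.smul c _ ((mem_Cr _).2 x.2) }
  refine ⟨M0.mkContinuous C ?_, ?_, ?_⟩
  · intro x
    exact hC _ ((mem_Cr _).2 x.2)
  · intro g
    apply Subtype.ext
    have h1 := hM.lam g
    rw [lam_eq] at h1
    exact h1
  · intro x
    exact (inCF_iff _).1 (hCF _ ((mem_Cr _).2 x.2))

end compare

/-! ### elements given by trees -/

/-- binary trees with leaves labelled by words -/
inductive Tr : Type
  | lf (v : List Bool) : Tr
  | nd (l r : Tr) : Tr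

open Tr

/-- the map which replaces the address of a leaf by its label -/
def tr : Tr → X → X
  | lf v => fun x => pre v x
  | nd l r => fun x => if x 0 = true then tr r (fun n => x (n + 1)) else tr l (fun n => x (n + 1))

theorem tr_lf (v : List Bool) (x : X) : tr (lf v) x = pre v x := rfl

theorem tr_false (l r : Tr) (x : X) : tr (nd l r) (cons false x) = tr l x := rfl

theorem tr_true (l r : Tr) (x : X) : tr (nd l r) (cons true x) = tr r x := rfl

theorem tr_loc (τ : Tr) : Loc (tr τ) := by
  induction τ with
  | lf v => exact fun x => ⟨[], v, x, rfl, fun _ => rfl⟩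
  | nd l r ihl ihr =>
    intro x
    obtain ⟨b, w, rfl⟩ := exists_cons x
    cases b with
    | false =>
      obtain ⟨u, v, w', rfl, h⟩ := ihl w
      exact ⟨false :: u, v, w', rfl, fun w'' => h w''⟩
    | true =>
      obtain ⟨u, v, w', rfl, h⟩ := ihr w
      exact ⟨true :: u, v, w', rfl, fun w'' => h w''⟩

/-- the labels -/
def lbl : Tr → List (List Bool)
  | lf v => [v]
  | nd l r => lbl l ++ lbl r

/-- `u` is to the left of `v` -/
def lef : List Bool → List Bool → Bool
  | false :: _, true :: _ => true
  | false :: u, false :: v => lef u v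
  | true :: u, true :: v => lef u v
  | _, _ => false

/-- the labels increase -/
def ord : Tr → Bool
  | lf _ => true
  | nd l r => ord l && ord r && (lbl l).all fun u => (lbl r).all fun v => lef u v

theorem lt_cons (b : Bool) (x y : X) : lt (cons b x) (cons b y) ↔ lt x y := by
  constructor
  · rintro ⟨n, h1, h2, h3⟩
    cases n with
    | zero =>
      rw [cons_zero] at h2 h3
      rw [h2] at h3
      exact absurd h3 (by decide)
    | succ n => exact ⟨n, fun m hm => h1 (m + 1) (by omega), h2, h3⟩
  · rintro ⟨n, h1, h2, h3⟩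
    refine ⟨n + 1, fun m hm => ?_, h2, h3⟩
    cases m with
    | zero => rfl
    | succ m => exact h1 m (by omega)

theorem lt_ft (x y : X) : lt (cons false x) (cons true y) :=
  ⟨0, fun m hm => absurd hm (Nat.not_lt_zero m), rfl, rfl⟩

theorem not_lt_tf (x y : X) : ¬ lt (cons true x) (cons false y) := by
  rintro ⟨n, h1, h2, h3⟩
  cases n with
  | zero => exact absurd h2 (by rw [cons_zero]; decide)
  | succ n => exact absurd (h1 0 (by omega)) (by rw [cons_zero, cons_zero]; decide)

theorem lt_pre (u : List Bool) (x y : X) : lt (pre u x) (pre u y) ↔ lt x y := by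
  induction u with
  | nil => exact Iff.rfl
  | cons b u ih => rw [pre_cons, pre_cons, lt_cons, ih]

theorem lt_of_lef : ∀ (u v : List Bool), lef u v = true → ∀ x y, lt (pre u x) (pre v y)
  | false :: _, true :: _, _, _, _ => lt_ft _ _
  | false :: u, false :: v, h, x, y => (lt_cons _ _ _).2 (lt_of_lef u v h x y)
  | true :: u, true :: v, h, x, y => (lt_cons _ _ _).2 (lt_of_lef u v h x y)
  | [], _, h, _, _ => by simp [lef] at h
  | true :: _, [], h, _, _ => by simp [lef] at h
  | false :: _, [], h, _, _ => by simp [lef] at h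
  | true :: _, false :: _, h, _, _ => by simp [lef] at h

theorem tr_lbl (τ : Tr) (x : X) : ∃ v ∈ lbl τ, ∃ w, tr τ x = pre v w := by
  induction τ generalizing x with
  | lf v => exact ⟨v, by simp [lbl], x, rfl⟩
  | nd l r ihl ihr =>
    obtain ⟨b, w, rfl⟩ := exists_cons x
    cases b with
    | false =>
      obtain ⟨v, hv, w', h⟩ := ihl w
      exact ⟨v, by simp [lbl, hv], w', h⟩
    | true =>
      obtain ⟨v, hv, w', h⟩ := ihr w
      exact ⟨v, by simp [lbl, hv], w', h⟩

theorem tr_mono (τ : Tr) (h : ord τ = true) {x y : X} (hxy : lt x y) : lt (tr τ x) (tr τ y) := by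
  induction τ generalizing x y with
  | lf v => exact (lt_pre _ _ _).2 hxy
  | nd l r ihl ihr =>
    simp only [ord, Bool.and_eq_true, List.all_eq_true] at h
    obtain ⟨⟨h1, h2⟩, h3⟩ := h
    obtain ⟨b, w, rfl⟩ := exists_cons x
    obtain ⟨b', w', rfl⟩ := exists_cons y
    cases b with
    | false =>
      cases b' with
      | false => exact ihl h1 ((lt_cons _ _ _).1 hxy)
      | true =>
        obtain ⟨v, hv, z, e1⟩ := tr_lbl l w
        obtain ⟨v', hv', z', e2⟩ := tr_lbl r w'
        rw [tr_false, tr_true, e1, e2]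
        exact lt_of_lef _ _ (h3 v hv v' hv') _ _
    | true =>
      cases b' with
      | false => exact absurd hxy (not_lt_tf _ _)
      | true => exact ihr h2 ((lt_cons _ _ _).1 hxy)

theorem lt_irrefl (x : X) : ¬ lt x x := by
  rintro ⟨n, _, h2, h3⟩
  rw [h2] at h3
  exact absurd h3 (by decide)

theorem lt_trans {x y z : X} (h1 : lt x y) (h2 : lt y z) : lt x z := by
  obtain ⟨n, a1, a2, a3⟩ := h1
  obtain ⟨m, b1, b2, b3⟩ := h2
  rcases lt_trichotomy n m with h | h | h
  · exact ⟨n, fun k hk => (a1 k hk).trans (b1 k (hk.trans h)), a2, by rw [← b1 n h]; exact a3⟩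
  · subst h
    rw [a3] at b2
    exact absurd b2 (by decide)
  · exact ⟨m, fun k hk => (a1 k (hk.trans h)).trans (b1 k hk), by rw [a1 m h]; exact b2, b3⟩

theorem lt_total (x y : X) : lt x y ∨ x = y ∨ lt y x := by
  by_cases h : x = y
  · exact Or.inr (Or.inl h)
  · have h1 : ∃ n, x n ≠ y n := by
      by_contra h2
      push Not at h2
      exact h (funext h2)
    classical
    have h3 := Nat.find_spec h1
    have h4 : ∀ m < Nat.find h1, x m = y m := fun m hm => by
      have := Nat.find_min h1 hm
      push Not at this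
      exact this
    cases hx : x (Nat.find h1) with
    | false =>
      left
      refine ⟨Nat.find h1, h4, hx, ?_⟩
      rw [hx] at h3
      cases hy : y (Nat.find h1) with
      | false => exact absurd hy.symm h3
      | true => rfl
    | true =>
      right; right
      refine ⟨Nat.find h1, fun m hm => (h4 m hm).symm, ?_, hx⟩
      rw [hx] at h3
      cases hy : y (Nat.find h1) with
      | false => rfl
      | true => exact absurd hy.symm h3

/-- the permutation given by two trees -/
def prm (τ τ' : Tr) (h1 : ∀ x, tr τ' (tr τ x) = x) (h2 : ∀ x, tr τ (tr τ' x) = x) :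
    Equiv.Perm X := ⟨tr τ, tr τ', h1, h2⟩

theorem prm_mem (τ τ' : Tr) (h1 : ∀ x, tr τ' (tr τ x) = x) (h2 : ∀ x, tr τ (tr τ' x) = x)
    (h : ord τ = true) : prm τ τ' h1 h2 ∈ F := by
  refine ⟨tr_loc τ, fun x y => ⟨fun hxy => tr_mono τ h hxy, fun hxy => ?_⟩⟩
  rcases lt_total x y with h3 | h3 | h3
  · exact h3
  · rw [h3] at hxy
    exact absurd hxy (lt_irrefl _)
  · exact absurd (lt_trans hxy (tr_mono τ h h3)) (lt_irrefl _)

theorem cs {P : X → Prop} (h0 : ∀ x, P (cons false x)) (h1 : ∀ x, P (cons true x)) (x : X) :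
    P x := by
  obtain ⟨b, w, rfl⟩ := exists_cons x
  cases b
  · exact h0 w
  · exact h1 w

/-- the tree of `s` -/
def sT : Tr := nd (nd (nd (lf [false, false]) (lf [false, true, false]))
    (lf [false, true, true, false, false]))
  (nd (nd (lf [false, true, true, false, true]) (lf [false, true, true, true])) (lf [true]))

/-- the tree of `s⁻¹` -/
def sT' : Tr := nd (nd (lf [false, false, false]) (nd (lf [false, false, true])
  (nd (nd (lf [false, true]) (lf [true, false, false])) (lf [true, false, true]))))
  (lf [true, true])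

/-- the tree of `t` -/
def tT : Tr := nd (nd (lf [false, false]) (nd (lf [false, true, false, false])
  (nd (lf [false, true, false, true]) (lf [false, true, true])))) (lf [true])

/-- the tree of `t⁻¹` -/
def tT' : Tr := nd (nd (lf [false, false]) (nd (nd (lf [false, true, false])
  (lf [false, true, true, false])) (lf [false, true, true, true]))) (lf [true])

/-- the tree of `a` -/
def aT : Tr := nd (nd (lf [false, false]) (nd (lf [false, true, false])
  (nd (nd (lf [false, true, true, false, false])
    (nd (lf [false, true, true, false, true, false, false])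
      (nd (lf [false, true, true, false, true, false, true])
        (lf [false, true, true, false, true, true]))))
    (lf [false, true, true, true])))) (lf [true])

/-- the tree of `a⁻¹` -/
def aT' : Tr := nd (nd (lf [false, false]) (nd (lf [false, true, false])
  (nd (nd (lf [false, true, true, false, false])
    (nd (nd (lf [false, true, true, false, true, false])
      (lf [false, true, true, false, true, true, false]))
        (lf [false, true, true, false, true, true, true])))
    (lf [false, true, true, true])))) (lf [true])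

theorem s1 (x : X) : tr sT' (tr sT x) = x := by
  revert x
  iterate 8 all_goals first | exact fun x => rfl | refine cs ?_ ?_

theorem s2 (x : X) : tr sT (tr sT' x) = x := by
  revert x
  iterate 8 all_goals first | exact fun x => rfl | refine cs ?_ ?_

theorem t1 (x : X) : tr tT' (tr tT x) = x := by
  revert x
  iterate 8 all_goals first | exact fun x => rfl | refine cs ?_ ?_

theorem t2 (x : X) : tr tT (tr tT' x) = x := by
  revert x
  iterate 8 all_goals first | exact fun x => rfl | refine cs ?_ ?_

theorem a1 (x : X) : tr aT' (tr aT x) = x := by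
  revert x
  iterate 8 all_goals first | exact fun x => rfl | refine cs ?_ ?_

theorem a2 (x : X) : tr aT (tr aT' x) = x := by
  revert x
  iterate 8 all_goals first | exact fun x => rfl | refine cs ?_ ?_

/-- the element `s` -/
def pS : Equiv.Perm X := prm sT sT' s1 s2

/-- the element `t` -/
def pT : Equiv.Perm X := prm tT tT' t1 t2

/-- the element `a` -/
def pA : Equiv.Perm X := prm aT aT' a1 a2

theorem pS_mem : pS ∈ F := prm_mem _ _ _ _ (by decide)

theorem pT_mem : pT ∈ F := prm_mem _ _ _ _ (by decide)

theorem pA_mem : pA ∈ F := prm_mem _ _ _ _ (by decide)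

/-- the sequences with a given initial word -/
def cone (u : List Bool) : Set X := {x | ∃ w, x = pre u w}

theorem t_fix (y : X) (hy : y ∉ cone [false, true]) : pT y = y := by
  obtain ⟨b, w, rfl⟩ := exists_cons y
  cases b with
  | true => rfl
  | false =>
    obtain ⟨b, w, rfl⟩ := exists_cons w
    cases b with
    | false => rfl
    | true => exact absurd ⟨w, rfl⟩ hy

theorem a_fix (y : X) (hy : y ∉ cone [false, true, true, false, true]) : pA y = y := by
  obtain ⟨b, w, rfl⟩ := exists_cons y
  cases b with
  | true => rfl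
  | false =>
    obtain ⟨b, w, rfl⟩ := exists_cons w
    cases b with
    | false => rfl
    | true =>
      obtain ⟨b, w, rfl⟩ := exists_cons w
      cases b with
      | false => rfl
      | true =>
        obtain ⟨b, w, rfl⟩ := exists_cons w
        cases b with
        | true => rfl
        | false =>
          obtain ⟨b, w, rfl⟩ := exists_cons w
          cases b with
          | false => rfl
          | true => exact absurd ⟨w, rfl⟩ hy

theorem t_D (y : X) (hy : y ∈ cone [false, true]) : pT y ∈ cone [false, true] := by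
  obtain ⟨w, rfl⟩ := hy
  obtain ⟨b, w, rfl⟩ := exists_cons w
  cases b with
  | false => exact ⟨pre [false, false] w, rfl⟩
  | true =>
    obtain ⟨b, w, rfl⟩ := exists_cons w
    cases b with
    | false => exact ⟨pre [false, true] w, rfl⟩
    | true => exact ⟨pre [true] w, rfl⟩

/-- the base point -/
def y0 : X := pre [false, true, true, false, true, true] fun _ => false

theorem y0_lt : lt (pA y0) y0 := by
  refine ⟨5, ?_, rfl, rfl⟩
  intro m hm
  interval_cases m <;> rfl

theorem pow_lt (k : ℕ) : lt ((pA ^ (k + 1)) y0) y0 := by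
  induction k with
  | zero => rw [zero_add, pow_one]; exact y0_lt
  | succ k ih =>
    rw [pow_succ', Equiv.Perm.mul_apply]
    exact lt_trans ((pA_mem.2 _ _).1 ih) y0_lt

theorem a_inf (k : ℤ) (h : (pA ^ k) y0 = y0) : k = 0 := by
  rcases lt_trichotomy k 0 with hk | hk | hk
  · exfalso
    obtain ⟨N, hN⟩ : ∃ N : ℕ, k = -((N + 1 : ℕ) : ℤ) := ⟨(-k - 1).toNat, by omega⟩
    rw [hN, zpow_neg, Equiv.Perm.inv_eq_iff_eq, zpow_natCast] at h
    have := pow_lt N
    rw [← h] at this
    exact lt_irrefl _ this
  · exact hk
  · exfalso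
    obtain ⟨N, hN⟩ : ∃ N : ℕ, k = ((N + 1 : ℕ) : ℤ) := ⟨(k - 1).toNat, by omega⟩
    rw [hN, zpow_natCast] at h
    have := pow_lt N
    rw [h] at this
    exact lt_irrefl _ this

/-- the configuration in a group containing `F` -/
def conf (H : Subgroup (Equiv.Perm X)) (hH : F ≤ H) : Pool.Agent.Helper31.HT.Conf H X where
  ρ := H.subtype
  inj := H.subtype_injective
  a := ⟨pA, hH pA_mem⟩
  s := ⟨pS, hH pS_mem⟩
  t := ⟨pT, hH pT_mem⟩
  D := cone [false, true]
  E := cone [false, true, true, false]
  J := cone [false, true, true, false, true]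
  Lf := cone [false, true, false]
  ED := by rintro _ ⟨w, rfl⟩; exact ⟨pre [true, false] w, rfl⟩
  JE := by rintro _ ⟨w, rfl⟩; exact ⟨pre [true] w, rfl⟩
  sE := by rintro _ ⟨w, rfl⟩; exact ⟨pre [false] w, rfl⟩
  sJ := by
    rintro _ ⟨w, rfl⟩ ⟨w', h⟩
    exact absurd (show false = true from congrFun h 4) (by decide)
  tD := by
    intro y
    constructor
    · intro h
      by_contra h2
      have h3 : pT y = y := t_fix y h2
      exact h2 (h3 ▸ h)
    · exact t_D y
  tE := by rintro _ ⟨w, rfl⟩; exact ⟨pre [true] w, rfl⟩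
  tL := by rintro _ ⟨w, rfl⟩; exact ⟨pre [false] w, rfl⟩
  LE := by
    rintro _ ⟨w, rfl⟩ ⟨w', h⟩
    exact absurd (show false = true from congrFun h 2) (by decide)
  t_fix := t_fix
  a_fix := a_fix
  y0 := y0
  y0J := ⟨pre [true] fun _ => false, rfl⟩
  a_inf := by
    intro k h
    rw [map_zpow] at h
    exact a_inf k h

/-- a group of permutations of the Cantor space which contains `F` does not have the heat
property -/
theorem not_heat (H : Subgroup (Equiv.Perm X)) (hH : F ≤ H) : ¬ Heat H :=
  fun h => (conf H hH).not_heat (heat_imp h)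

/-- Full answer to Q2 (no, for all three groups): none of Thompson's groups `F`, `T`, `V` has the
heat property. -/
theorem result : ¬ Heat F ∧ ¬ Heat T ∧ ¬ Heat V :=
  ⟨not_heat F le_rfl, not_heat T F_le_T, not_heat V F_le_V⟩

end Pool.Agent.Results.MP_94b6b1_an.ThompsonNoHeat
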